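import Pool.Agent.W523.LV.Stmts

set_option autoImplicit false

open Finset

namespace Pool.Agent.W293.LV

open Pool.Agent.H96R3.BC (vv UU CC mem_CC)
open Pool.Agent.W523.LV

theorem taskGlue : TaskGlue := by
  intro Q j₀ R s hQ hj₀ hRj hRk hR2 hsupp hbd hbb hbz hmom
  have hRs : StrictMono R := strictMono_nat_of_lt_succ fun k => by have := hR2 k; omega
  have hQ2 : 2 * Q ≠ 0 := by omega
  have hpow : ∀ {a b : ℕ}, a ≤ b → a ^ (2 * Q) ≤ b ^ (2 * Q) := fun h => Nat.pow_le_pow_left h _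
  -- windows are separated
  have hsep : ∀ k, 2 * R k ^ (2 * Q) ≤ R (k + 1) ^ (2 * Q) := by
    intro k
    have h1 : (2 * R k) ^ (2 * Q) ≤ R (k + 1) ^ (2 * Q) := hpow (by have := hR2 k; omega)
    rw [mul_pow] at h1
    have h2 : 2 ≤ 2 ^ (2 * Q) := by
      calc 2 = 2 ^ 1 := rfl
        _ ≤ 2 ^ (2 * Q) := Nat.pow_le_pow_right (by norm_num) (by omega)
    exact (Nat.mul_le_mul_right _ h2).trans h1
  have hself : ∀ k, R k ≤ R k ^ (2 * Q) := fun k => Nat.le_self_pow hQ2 _
  have hlt : ∀ k n, s k n ≠ 0 → k < n := by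
    intro k n h
    have h1 := (hsupp k n h).2.1
    have h2 := hRk k
    have h3 := hself k
    omega
  -- value on the windows
  have hval : ∀ k n : ℕ, R k ^ (2 * Q) < n → n ≤ R (k + 1) ^ (2 * Q) → glue s n = s k n := by
    intro k n h1 h2
    unfold glue
    have hk : k ∈ range (n + 1) := by
      have h3 := hRk k
      have h4 := hself k
      rw [mem_range]
      omega
    rw [sum_eq_single_of_mem k hk]
    intro l _ hlk
    by_contra hne
    obtain ⟨_, h3, h4⟩ := hsupp l n hne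
    rcases lt_or_gt_of_ne hlk with h | h
    · have h5 : R (l + 1) ^ (2 * Q) ≤ R k ^ (2 * Q) := hpow (hRs.monotone (by omega))
      have h6 := hsep l
      omega
    · have h5 : R (k + 1) ^ (2 * Q) ≤ R l ^ (2 * Q) := hpow (hRs.monotone (by omega))
      omega
  have hzero : ∀ n : ℕ, n ≤ R 0 ^ (2 * Q) → glue s n = 0 := by
    intro n h1
    unfold glue
    refine sum_eq_zero fun l _ => ?_
    by_contra hne
    obtain ⟨_, h3, h4⟩ := hsupp l n hne
    have h5 : R 0 ^ (2 * Q) ≤ R l ^ (2 * Q) := hpow (hRs.monotone (Nat.zero_le l))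
    omega
  -- location
  have hloc : ∀ j : ℕ, R 0 ≤ j → ∃ k, R k ≤ j ∧ j < R (k + 1) := by
    intro j hj
    have hex : ∃ k, j < R k := ⟨j + 1, by have := hRk (j + 1); omega⟩
    classical
    have hf := Nat.find_spec hex
    rcases Nat.eq_zero_or_pos (Nat.find hex) with h0 | h0
    · rw [h0] at hf
      omega
    · refine ⟨Nat.find hex - 1, ?_, ?_⟩
      · have := Nat.find_min hex (m := Nat.find hex - 1) (by omega)
        omega
      · rwa [Nat.sub_add_cancel h0]
  -- boundary masses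
  have hB0 : ∀ j : ℕ, j ≤ R 0 → BB Q j₀ (glue s) j = 0 := by
    intro j hj
    unfold BB
    refine sum_eq_zero fun n hn => ?_
    rw [mem_Icc] at hn
    rw [hzero n (hn.2.trans (hpow hj)), zero_mul]
  have hstep : ∀ k j : ℕ, BB Q j₀ (glue s) (R k) = 0 → R k ≤ j → j ≤ R (k + 1) →
      BB Q j₀ (glue s) j = BB Q j₀ (s k) j := by
    intro k j h0 h1 h2
    have hsub : Icc 1 (R k ^ (2 * Q)) ⊆ Icc 1 (j ^ (2 * Q)) := Icc_subset_Icc_right (hpow h1)
    have e1 : BB Q j₀ (glue s) j - BB Q j₀ (s k) j =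
        ∑ n ∈ Icc 1 (j ^ (2 * Q)), (glue s n - s k n) * (vv Q j₀ n) ^ 2 := by
      unfold BB
      rw [← sum_sub_distrib]
      exact sum_congr rfl fun n _ => by ring
    have e2 : BB Q j₀ (glue s) (R k) - BB Q j₀ (s k) (R k) =
        ∑ n ∈ Icc 1 (R k ^ (2 * Q)), (glue s n - s k n) * (vv Q j₀ n) ^ 2 := by
      unfold BB
      rw [← sum_sub_distrib]
      exact sum_congr rfl fun n _ => by ring
    have e3 : BB Q j₀ (s k) (R k) = 0 := by
      unfold BB
      refine sum_eq_zero fun n hn => ?_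
      rw [mem_Icc] at hn
      have : s k n = 0 := by
        by_contra hne
        have := (hsupp k n hne).2.1
        omega
      rw [this, zero_mul]
    have e4 : ∑ n ∈ Icc 1 (R k ^ (2 * Q)), (glue s n - s k n) * (vv Q j₀ n) ^ 2 =
        ∑ n ∈ Icc 1 (j ^ (2 * Q)), (glue s n - s k n) * (vv Q j₀ n) ^ 2 := by
      refine sum_subset hsub fun n hn hn' => ?_
      rw [mem_Icc] at hn
      rw [mem_Icc, not_and] at hn'
      have h3 : R k ^ (2 * Q) < n := not_le.mp (hn' hn.1)
      rw [hval k n h3 (hn.2.trans (hpow h2)), sub_self, zero_mul]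
    rw [e4, ← e1, h0, e3] at e2
    linarith
  have hBR : ∀ k, BB Q j₀ (glue s) (R k) = 0 := by
    intro k
    induction k with
    | zero => exact hB0 _ le_rfl
    | succ k ih =>
      rw [hstep k (R (k + 1)) ih (hRs.monotone (Nat.le_succ k)) le_rfl]
      refine hbz k _ ?_
      refine lt_of_le_of_lt (hsep k) ?_
      exact Nat.pow_lt_pow_left (Nat.lt_succ_self _) hQ2
  have hBk : ∀ k j : ℕ, R k ≤ j → j ≤ R (k + 1) → BB Q j₀ (glue s) j = BB Q j₀ (s k) j :=
    fun k j => hstep k j (hBR k)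
  refine ⟨⟨?_, ?_, ?_, ?_⟩, hval, hzero, hBk, hB0⟩
  · intro n hn
    have : ∃ l ∈ range (n + 1), s l n ≠ 0 := exists_ne_zero_of_sum_ne_zero hn
    obtain ⟨l, _, hl⟩ := this
    obtain ⟨h1, h2, _⟩ := hsupp l n hl
    exact ⟨h1, lt_of_le_of_lt (hpow (hRj l)) h2⟩
  · intro n
    by_cases hn : n ≤ R 0 ^ (2 * Q)
    · rw [hzero n hn, abs_zero]
      positivity
    · push Not at hn
      have hex : ∃ k, R k ^ (2 * Q) < n ∧ n ≤ R (k + 1) ^ (2 * Q) := by
        have hex : ∃ k, n ≤ R k ^ (2 * Q) := ⟨n, (hRk n).trans (hself n)⟩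
        classical
        have hf := Nat.find_spec hex
        rcases Nat.eq_zero_or_pos (Nat.find hex) with h0 | h0
        · rw [h0] at hf
          omega
        · refine ⟨Nat.find hex - 1, ?_, ?_⟩
          · have := Nat.find_min hex (m := Nat.find hex - 1) (by omega)
            omega
          · rwa [Nat.sub_add_cancel h0]
      obtain ⟨k, h1, h2⟩ := hex
      rw [hval k n h1 h2]
      exact hbd k n
  · intro j hj
    by_cases h : j ≤ R 0
    · rw [hB0 j h, abs_zero]
      positivity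
    · push Not at h
      obtain ⟨k, h1, h2⟩ := hloc j h.le
      rw [hBk k j h1 h2.le]
      refine (hbb k j).trans ?_
      have h3 : (R k : ℝ) ^ (2 * Q - 1) ≤ (j : ℝ) ^ (2 * Q - 1) :=
        pow_le_pow_left₀ (Nat.cast_nonneg _) (by exact_mod_cast h1) _
      have h4 : 0 ≤ (UU j₀ j) ^ 2 := sq_nonneg _
      nlinarith [mul_le_mul_of_nonneg_right h3 h4]
  · intro j hj P hP
    by_cases h : j < R 0
    · rw [hB0 j h.le, hB0 (j + 1) h, zero_mul, zero_mul, add_zero]
      refine sum_eq_zero fun p hp => ?_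
      rw [mem_CC] at hp
      rw [hzero p (hp.2.trans (hpow h)), zero_mul, zero_mul]
    · push Not at h
      obtain ⟨k, h1, h2⟩ := hloc j h
      rw [hBk k j h1 h2.le, hBk k (j + 1) (by omega) h2, ← hmom k j P hP]
      congr 1
      refine sum_congr rfl fun p hp => ?_
      rw [mem_CC] at hp
      rw [hval k p (lt_of_le_of_lt (hpow h1) hp.1) (hp.2.trans (hpow h2))]

end Pool.Agent.W293.LV
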